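import Pool.Agent.Helper30.Ball.M4
import Pool.Agent.Helper8.B.Struct3

/-!
BALL QUOTIENT TYPE, module M5': the rotations.
-/

open scoped ComplexConjugate InnerProductSpace

namespace Pool.Agent.Helper36.Ball

open Module Matrix Pool.Agent.Ball

section coords

variable {l : ℕ}

/-- the square root of two -/
noncomputable def s2 : ℂ := ((Real.sqrt 2 : ℝ) : ℂ)

lemma s2_mul : s2 * s2 = 2 := by
  rw [s2, ← Complex.ofReal_mul, Real.mul_self_sqrt (by norm_num)]
  norm_num

lemma s2_ne : s2 ≠ 0 := by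
  intro h
  have := s2_mul
  rw [h, mul_zero] at this
  exact two_ne_zero this.symm

/-- coordinates -/
noncomputable def crd (r : OrthonormalBasis (Fin l) ℂ (EuclideanSpace ℂ (Fin l))) :
    LV l ≃ₗ[ℂ] (Fin l ⊕ Bool → ℂ) where
  toFun x := Sum.elim (fun i => r.toBasis.equivFun x.2.1 i)
    (fun b => cond b ((x.1 - x.2.2) / s2) (- Complex.I * ((x.1 + x.2.2) / s2)))
  invFun c := ((c (Sum.inr true) + Complex.I * c (Sum.inr false)) / s2,
    r.toBasis.equivFun.symm (fun i => c (Sum.inl i)),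
    (- c (Sum.inr true) + Complex.I * c (Sum.inr false)) / s2)
  map_add' x y := by
    funext j
    rcases j with i | b
    · simp
    · cases b
      · simp only [Sum.elim_inr, cond_false, Prod.fst_add, Prod.snd_add, Pi.add_apply]
        ring
      · simp only [Sum.elim_inr, cond_true, Prod.fst_add, Prod.snd_add, Pi.add_apply]
        ring
  map_smul' a x := by
    funext j
    rcases j with i | b
    · simp
    · cases b
      · simp only [Sum.elim_inr, cond_false, Prod.smul_fst, Prod.smul_snd, Pi.smul_apply,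
          smul_eq_mul, RingHom.id_apply]
        ring
      · simp only [Sum.elim_inr, cond_true, Prod.smul_fst, Prod.smul_snd, Pi.smul_apply,
          smul_eq_mul, RingHom.id_apply]
        ring
  left_inv x := by
    have h2 := s2_ne
    have h3 := s2_mul
    have h4 := Complex.I_mul_I
    ext1
    · show ((x.1 - x.2.2) / s2 + Complex.I * (- Complex.I * ((x.1 + x.2.2) / s2))) / s2 = x.1
      field_simp
      linear_combination (-x.1) * h3 - (x.1 + x.2.2) * h4
    · ext1
      · show r.toBasis.equivFun.symm (fun i => r.toBasis.equivFun x.2.1 i) = x.2.1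
        exact r.toBasis.equivFun.symm_apply_apply x.2.1
      · show (- ((x.1 - x.2.2) / s2) + Complex.I * (- Complex.I * ((x.1 + x.2.2) / s2))) / s2
            = x.2.2
        field_simp
        linear_combination (-x.2.2) * h3 - (x.1 + x.2.2) * h4
  right_inv c := by
    have h2 := s2_ne
    have h3 := s2_mul
    have h4 := Complex.I_mul_I
    funext j
    rcases j with i | b
    · show r.toBasis.equivFun (r.toBasis.equivFun.symm (fun i => c (Sum.inl i))) i = c (Sum.inl i)
      rw [LinearEquiv.apply_symm_apply]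
    · cases b
      · show - Complex.I * (((c (Sum.inr true) + Complex.I * c (Sum.inr false)) / s2 +
          (- c (Sum.inr true) + Complex.I * c (Sum.inr false)) / s2) / s2) = c (Sum.inr false)
        field_simp
        linear_combination (-c (Sum.inr false)) * h3 - (2 * c (Sum.inr false)) * h4
      · show ((c (Sum.inr true) + Complex.I * c (Sum.inr false)) / s2 -
          (- c (Sum.inr true) + Complex.I * c (Sum.inr false)) / s2) / s2 = c (Sum.inr true)
        field_simp
        linear_combination (-c (Sum.inr true)) * h3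

/-- the adapted basis -/
noncomputable def bas (r : OrthonormalBasis (Fin l) ℂ (EuclideanSpace ℂ (Fin l))) :
    Basis (Fin l ⊕ Bool) ℂ (LV l) := Basis.ofEquivFun (crd r)

lemma bas_apply (r : OrthonormalBasis (Fin l) ℂ (EuclideanSpace ℂ (Fin l))) (j : Fin l ⊕ Bool) :
    bas r j = (crd r).symm (Pi.single j 1) := by
  rw [bas, Basis.coe_ofEquivFun]

lemma bas_inl (r : OrthonormalBasis (Fin l) ℂ (EuclideanSpace ℂ (Fin l))) (i : Fin l) :
    bas r (Sum.inl i) = (0, r i, 0) := by
  rw [bas_apply]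
  show (((Pi.single (Sum.inl i) 1 : Fin l ⊕ Bool → ℂ) (Sum.inr true) + Complex.I *
      (Pi.single (Sum.inl i) 1 : Fin l ⊕ Bool → ℂ) (Sum.inr false)) / s2,
    r.toBasis.equivFun.symm (fun i' => (Pi.single (Sum.inl i) 1 : Fin l ⊕ Bool → ℂ) (Sum.inl i')),
    (- (Pi.single (Sum.inl i) 1 : Fin l ⊕ Bool → ℂ) (Sum.inr true) + Complex.I *
      (Pi.single (Sum.inl i) 1 : Fin l ⊕ Bool → ℂ) (Sum.inr false)) / s2) = _
  have h1 : (fun i' => (Pi.single (Sum.inl i) 1 : Fin l ⊕ Bool → ℂ) (Sum.inl i')) =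
      Pi.single i 1 := by
    funext i'
    by_cases h : i' = i
    · subst h; simp
    · rw [Pi.single_eq_of_ne h, Pi.single_eq_of_ne (fun h' => h (Sum.inl_injective h'))]
  rw [h1, Basis.equivFun_symm_apply]
  simp

lemma bas_true (r : OrthonormalBasis (Fin l) ℂ (EuclideanSpace ℂ (Fin l))) :
    bas r (Sum.inr true) = (1 / s2, 0, - 1 / s2) := by
  rw [bas_apply]
  show (((Pi.single (Sum.inr true) 1 : Fin l ⊕ Bool → ℂ) (Sum.inr true) + Complex.I *
      (Pi.single (Sum.inr true) 1 : Fin l ⊕ Bool → ℂ) (Sum.inr false)) / s2,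
    r.toBasis.equivFun.symm (fun i' => (Pi.single (Sum.inr true) 1 : Fin l ⊕ Bool → ℂ)
      (Sum.inl i')),
    (- (Pi.single (Sum.inr true) 1 : Fin l ⊕ Bool → ℂ) (Sum.inr true) + Complex.I *
      (Pi.single (Sum.inr true) 1 : Fin l ⊕ Bool → ℂ) (Sum.inr false)) / s2) = _
  have h1 : (fun i' => (Pi.single (Sum.inr true) 1 : Fin l ⊕ Bool → ℂ) (Sum.inl i')) = 0 := by
    funext i'
    rw [Pi.single_eq_of_ne (by simp)]
    rfl
  rw [h1, map_zero]
  simp

lemma bas_false (r : OrthonormalBasis (Fin l) ℂ (EuclideanSpace ℂ (Fin l))) :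
    bas r (Sum.inr false) = (Complex.I / s2, 0, Complex.I / s2) := by
  rw [bas_apply]
  show (((Pi.single (Sum.inr false) 1 : Fin l ⊕ Bool → ℂ) (Sum.inr true) + Complex.I *
      (Pi.single (Sum.inr false) 1 : Fin l ⊕ Bool → ℂ) (Sum.inr false)) / s2,
    r.toBasis.equivFun.symm (fun i' => (Pi.single (Sum.inr false) 1 : Fin l ⊕ Bool → ℂ)
      (Sum.inl i')),
    (- (Pi.single (Sum.inr false) 1 : Fin l ⊕ Bool → ℂ) (Sum.inr true) + Complex.I *
      (Pi.single (Sum.inr false) 1 : Fin l ⊕ Bool → ℂ) (Sum.inr false)) / s2) = _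
  have h1 : (fun i' => (Pi.single (Sum.inr false) 1 : Fin l ⊕ Bool → ℂ) (Sum.inl i')) = 0 := by
    funext i'
    rw [Pi.single_eq_of_ne (by simp)]
    rfl
  rw [h1, map_zero]
  simp

end coords

section mat

variable {m : ℕ}

lemma rot_mulVec_single (p q k : Fin m) :
    rot p q *ᵥ (Pi.single k 1 : Fin m → ℂ) =
      (if k = q then (Pi.single p 1 : Fin m → ℂ) else 0) -
        (if k = p then (Pi.single q 1 : Fin m → ℂ) else 0) := by
  rw [rot, sub_mulVec]
  congr 1
  · by_cases h : k = q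
    · subst h
      rw [if_pos rfl]
      funext i
      simp [Matrix.mulVec_single, Matrix.single, Pi.single_apply, eq_comm]
    · rw [if_neg h]
      funext i
      simp [Matrix.mulVec_single, Matrix.single, Ne.symm h]
  · by_cases h : k = p
    · subst h
      rw [if_pos rfl]
      funext i
      simp [Matrix.mulVec_single, Matrix.single, Pi.single_apply, eq_comm]
    · rw [if_neg h]
      funext i
      simp [Matrix.mulVec_single, Matrix.single, Ne.symm h]

lemma exists_UV (b : Basis (Fin m) ℂ (Fin m → ℂ)) :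
    ∃ U V : Matrix (Fin m) (Fin m) ℂ, U * V = 1 ∧ V * U = 1 ∧
      ∀ p q k, (U * rot p q * V) *ᵥ b k =
        (if k = q then b p else 0) - (if k = p then b q else 0) := by
  classical
  refine ⟨(Pi.basisFun ℂ (Fin m)).toMatrix b, b.toMatrix (Pi.basisFun ℂ (Fin m)),
    Basis.toMatrix_mul_toMatrix_flip _ _, Basis.toMatrix_mul_toMatrix_flip _ _, ?_⟩
  have hU : ∀ j, (Pi.basisFun ℂ (Fin m)).toMatrix b *ᵥ (Pi.single j 1 : Fin m → ℂ) = b j := by
    intro j
    funext i
    rw [Matrix.mulVec_single_one]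
    simp [Basis.toMatrix_apply, Matrix.col]
  have hV : ∀ j, b.toMatrix (Pi.basisFun ℂ (Fin m)) *ᵥ b j = (Pi.single j 1 : Fin m → ℂ) := by
    intro j
    rw [← hU j, mulVec_mulVec, Basis.toMatrix_mul_toMatrix_flip, one_mulVec]
  intro p q k
  rw [← mulVec_mulVec, hV, ← mulVec_mulVec, rot_mulVec_single, mulVec_sub]
  congr 1
  · split_ifs
    · exact hU p
    · exact mulVec_zero _
  · split_ifs
    · exact hU q
    · exact mulVec_zero _

lemma rot_self (p : Fin m) : rot p p = 0 := by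
  rw [rot, sub_self]

lemma rot_symm (p q : Fin m) : rot q p = - rot p q := by
  rw [rot, rot, neg_sub]

lemma rot_bracket {p q r : Fin m} (hpq : p ≠ q) (hqr : q ≠ r) (hpr : p ≠ r) :
    rot p q * rot q r - rot q r * rot p q = rot p r := by
  have h1 : (Matrix.single p q 1 : Matrix (Fin m) (Fin m) ℂ) * Matrix.single r q 1 = 0 :=
    Matrix.single_mul_single_of_ne _ _ _ _ hqr _
  have h2 : (Matrix.single q p 1 : Matrix (Fin m) (Fin m) ℂ) * Matrix.single q r 1 = 0 :=
    Matrix.single_mul_single_of_ne _ _ _ _ hpq _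
  have h3 : (Matrix.single q p 1 : Matrix (Fin m) (Fin m) ℂ) * Matrix.single r q 1 = 0 :=
    Matrix.single_mul_single_of_ne _ _ _ _ hpr _
  have h4 : (Matrix.single q r 1 : Matrix (Fin m) (Fin m) ℂ) * Matrix.single p q 1 = 0 :=
    Matrix.single_mul_single_of_ne _ _ _ _ hpr.symm _
  have h5 : (Matrix.single q r 1 : Matrix (Fin m) (Fin m) ℂ) * Matrix.single q p 1 = 0 :=
    Matrix.single_mul_single_of_ne _ _ _ _ hqr.symm _
  have h6 : (Matrix.single r q 1 : Matrix (Fin m) (Fin m) ℂ) * Matrix.single p q 1 = 0 :=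
    Matrix.single_mul_single_of_ne _ _ _ _ hpq.symm _
  simp only [rot, sub_mul, mul_sub, Matrix.single_mul_single_same, mul_one, h1, h2, h3, h4, h5,
    h6]
  simp

end mat

section ops

variable {l : ℕ}

lemma opY_app (v u : EuclideanSpace ℂ (Fin l)) (x : LV l) :
    opY v u x = (⟪u, x.2.1⟫_ℂ, x.2.2 • v, 0) := rfl

lemma opZ_app (v u : EuclideanSpace ℂ (Fin l)) (x : LV l) :
    opZ v u x = (0, x.1 • v, ⟪u, x.2.1⟫_ℂ) := rfl

lemma rot_plus (r : OrthonormalBasis (Fin l) ℂ (EuclideanSpace ℂ (Fin l))) (i : Fin l)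
    (j : Fin l ⊕ Bool) :
    s2⁻¹ • (opY (r i) (r i) (bas r j) - opZ (r i) (r i) (bas r j)) =
      (if j = Sum.inl i then bas r (Sum.inr true) else 0) -
        (if j = Sum.inr true then bas r (Sum.inl i) else 0) := by
  have h2 := s2_ne
  have h3 := s2_mul
  have hinv : (s2 : ℂ)⁻¹ * (1 / s2) = 1 / 2 := by
    rw [← h3]; field_simp
  rcases j with j | b
  · rw [if_neg (by simp : ¬ (Sum.inl j : Fin l ⊕ Bool) = Sum.inr true), sub_zero, opY_app,
      opZ_app, bas_inl, bas_true]
    simp only [zero_smul]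
    rw [orthonormal_iff_ite.mp r.orthonormal i j]
    by_cases h : j = i
    · subst h
      rw [if_pos rfl, if_pos rfl]
      ext1
      · simp
      · ext1
        · simp
        · simp [neg_div]
    · rw [if_neg (fun h' => h h'.symm), if_neg (fun h' => h (Sum.inl_injective h'))]
      simp
  · cases b
    · rw [if_neg (by simp), if_neg (by simp), sub_zero, opY_app, opZ_app, bas_false]
      simp
    · rw [if_neg (by simp), if_pos rfl, zero_sub, opY_app, opZ_app, bas_true, bas_inl]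
      ext1
      · simp
      · ext1
        · show s2⁻¹ • ((-1 / s2) • r i - (1 / s2) • r i) = - r i
          rw [← sub_smul, smul_smul]
          have : s2⁻¹ * (-1 / s2 - 1 / s2) = -1 := by
            have h5 : s2⁻¹ * (-1 / s2 - 1 / s2) = - (2 * (s2⁻¹ * (1 / s2))) := by ring
            rw [h5, hinv]; norm_num
          rw [this, neg_one_smul]
        · simp

lemma rot_minus (r : OrthonormalBasis (Fin l) ℂ (EuclideanSpace ℂ (Fin l))) (i : Fin l)
    (j : Fin l ⊕ Bool) :
    (- Complex.I * s2⁻¹) • (opY (r i) (r i) (bas r j) + opZ (r i) (r i) (bas r j)) =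
      (if j = Sum.inr false then bas r (Sum.inl i) else 0) -
        (if j = Sum.inl i then bas r (Sum.inr false) else 0) := by
  have h2 := s2_ne
  have h3 := s2_mul
  have h4 := Complex.I_mul_I
  have hinv : (s2 : ℂ)⁻¹ * (1 / s2) = 1 / 2 := by
    rw [← h3]; field_simp
  rcases j with j | b
  · rw [if_neg (by simp : ¬ (Sum.inl j : Fin l ⊕ Bool) = Sum.inr false), zero_sub, opY_app,
      opZ_app, bas_inl, bas_false]
    simp only [zero_smul]
    rw [orthonormal_iff_ite.mp r.orthonormal i j]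
    by_cases h : j = i
    · subst h
      rw [if_pos rfl, if_pos rfl]
      ext1
      · simp [div_eq_mul_inv]
      · ext1
        · simp
        · simp [div_eq_mul_inv]
    · rw [if_neg (fun h' => h h'.symm), if_neg (fun h' => h (Sum.inl_injective h'))]
      simp
  · cases b
    · rw [if_pos rfl, if_neg (by simp), sub_zero, opY_app, opZ_app, bas_false, bas_inl]
      ext1
      · simp
      · ext1
        · show (- Complex.I * s2⁻¹) • ((Complex.I / s2) • r i + (Complex.I / s2) • r i) = r i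
          rw [← add_smul, smul_smul]
          have : - Complex.I * s2⁻¹ * (Complex.I / s2 + Complex.I / s2) = 1 := by
            have h5 : - Complex.I * s2⁻¹ * (Complex.I / s2 + Complex.I / s2) =
                - (Complex.I * Complex.I) * (2 * (s2⁻¹ * (1 / s2))) := by ring
            rw [h5, hinv, h4]; norm_num
          rw [this, one_smul]
        · simp
    · rw [if_neg (by simp), if_neg (by simp), sub_zero, opY_app, opZ_app, bas_true]
      ext1
      · simp
      · ext1
        · show (- Complex.I * s2⁻¹) • ((-1 / s2) • r i + (1 / s2) • r i) = 0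
          rw [← add_smul, smul_smul]
          have : - Complex.I * s2⁻¹ * (-1 / s2 + 1 / s2) = 0 := by ring
          rw [this, zero_smul]
        · simp

end ops

section final

/-- transport of structure -/
noncomputable def TT {l m : ℕ} (Θ : LV l ≃ₗ[ℂ] (Fin m → ℂ)) :
    Matrix (Fin m) (Fin m) ℂ ≃ₗ[ℂ] Module.End ℂ (LV l) :=
  Matrix.toLin'.trans (LinearEquiv.conj Θ.symm)

lemma TT_apply {l m : ℕ} (Θ : LV l ≃ₗ[ℂ] (Fin m → ℂ)) (X : Matrix (Fin m) (Fin m) ℂ)
    (x : LV l) : TT Θ X x = Θ.symm (X *ᵥ Θ x) := rfl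

lemma TT_mul {l m : ℕ} (Θ : LV l ≃ₗ[ℂ] (Fin m → ℂ)) (X Y : Matrix (Fin m) (Fin m) ℂ) :
    TT Θ (X * Y) = TT Θ X * TT Θ Y := by
  refine LinearMap.ext fun x => ?_
  rw [Module.End.mul_apply, TT_apply, TT_apply, TT_apply, LinearEquiv.apply_symm_apply,
    mulVec_mulVec]

lemma TT_bracket {l m : ℕ} (Θ : LV l ≃ₗ[ℂ] (Fin m → ℂ)) (X Y : Matrix (Fin m) (Fin m) ℂ) :
    TT Θ (X * Y - Y * X) = TT Θ X * TT Θ Y - TT Θ Y * TT Θ X := by
  rw [map_sub, TT_mul, TT_mul]

/-- M5'.  Rotations. -/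
theorem M5' {m : ℕ} (hm : 3 ≤ m) (H : Matrix (Fin m) (Fin m) ℂ) (hL : Lorentz H)
    (hdet : ∀ v, (∀ u, hf H u v = 0) → v = 0)
    (g c : Submodule ℂ (Matrix (Fin m) (Fin m) ℂ))
    (hg : ∀ X ∈ g, ∀ Y ∈ g, X * Y - Y * X ∈ g) (hcg : c ≤ g)
    (hc : ∀ X ∈ g, ∀ Y ∈ c, X * Y - Y * X ∈ c)
    (hadj : ∀ X ∈ g, ∃ X' ∈ g, ∀ u v, hf H (X' *ᵥ u) v = hf H u (X *ᵥ v))
    (hirr : ∀ U : Submodule ℂ (Fin m → ℂ), (∀ X ∈ g, ∀ v ∈ U, X *ᵥ v ∈ U) → U = ⊥ ∨ U = ⊤)
    (B : Matrix (Fin m) (Fin m) ℂ) (hBc : B ∈ c)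
    (hB : ∀ u v, hf H (B *ᵥ u) v + hf H u (B *ᵥ v) = 0)
    (hdiag : ∀ v : Fin m → ℂ, v ∈ Submodule.span ℂ {w | ∃ r : ℝ, B *ᵥ w = (r : ℂ) • w})
    (hB0 : B ≠ 0) :
    ∃ U V : Matrix (Fin m) (Fin m) ℂ, U * V = 1 ∧ V * U = 1 ∧
      ∀ i j, U * rot i j * V ∈ c := by
  classical
  obtain ⟨l, Θ, a, hml, ha, hΘ, hBΘ⟩ := Helper30.Ball.M4 H hL hdet B hB hdiag hB0
  have hl : 0 < l := by omega
  have haC : (a : ℂ) ≠ 0 := by exact_mod_cast ha
  obtain ⟨r, hr⟩ := structure_thm (g.map (TT Θ : _ →ₗ[ℂ] _)) (c.map (TT Θ : _ →ₗ[ℂ] _))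
    (by
      rintro _ ⟨X, hX, rfl⟩ _ ⟨Y, hY, rfl⟩
      exact ⟨X * Y - Y * X, hg X hX Y hY, TT_bracket Θ X Y⟩)
    (Submodule.map_mono hcg)
    (by
      rintro _ ⟨X, hX, rfl⟩ _ ⟨Y, hY, rfl⟩
      exact ⟨X * Y - Y * X, hc X hX Y hY, TT_bracket Θ X Y⟩)
    (by
      refine ⟨(a : ℂ)⁻¹ • B, c.smul_mem _ hBc, ?_⟩
      refine LinearMap.ext fun x => ?_
      show Θ.symm (((a : ℂ)⁻¹ • B) *ᵥ Θ x) = opH x
      rw [smul_mulVec, hBΘ, smul_smul, inv_mul_cancel₀ haC, one_smul,
        LinearEquiv.symm_apply_apply])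
    (by
      rintro _ ⟨X, hX, rfl⟩
      obtain ⟨X', hX', h⟩ := hadj X hX
      refine ⟨TT Θ X', ⟨X', hX', rfl⟩, fun u v => ?_⟩
      show Ball.hm (Θ.symm (X' *ᵥ Θ u)) v = Ball.hm u (Θ.symm (X *ᵥ Θ v))
      rw [← hΘ, ← hΘ, LinearEquiv.apply_symm_apply, LinearEquiv.apply_symm_apply, h])
    (by
      intro U hU
      rcases hirr (U.map (Θ : LV l →ₗ[ℂ] (Fin m → ℂ))) (by
        rintro X hX _ ⟨v, hv, rfl⟩
        refine ⟨TT Θ X v, hU _ ⟨X, hX, rfl⟩ v hv, ?_⟩
        show Θ (Θ.symm (X *ᵥ Θ v)) = X *ᵥ Θ v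
        rw [LinearEquiv.apply_symm_apply]) with h | h
      · left
        rw [Submodule.map_eq_bot_iff] at h
        exact h
      · right
        rw [eq_top_iff]
        intro x _
        have h1 : Θ x ∈ U.map (Θ : LV l →ₗ[ℂ] (Fin m → ℂ)) := by rw [h]; trivial
        obtain ⟨y, hy, hyx⟩ := h1
        have h2 : y = x := Θ.injective hyx
        rw [← h2]
        exact hy)
    hl
  subst hml
  let e : Fin l ⊕ Bool ≃ Fin (l + 2) :=
    (Equiv.sumCongr (Equiv.refl _) finTwoEquiv.symm).trans finSumFinEquiv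
  let b : Basis (Fin (l + 2)) ℂ (Fin (l + 2) → ℂ) := ((bas r).map Θ).reindex e
  have hb : ∀ j, b (e j) = Θ (bas r j) := by
    intro j
    rw [Basis.reindex_apply, Equiv.symm_apply_apply, Basis.map_apply]
  obtain ⟨U, V, hUV, hVU, hrot⟩ := exists_UV b
  refine ⟨U, V, hUV, hVU, ?_⟩
  have hsymm : ∀ p q, U * rot p q * V ∈ c → U * rot q p * V ∈ c := by
    intro p q h
    rw [rot_symm p q, mul_neg, neg_mul]
    exact c.neg_mem h
  have hself : ∀ p, U * rot p p * V ∈ c := by
    intro p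
    rw [rot_self, mul_zero, zero_mul]
    exact c.zero_mem
  have htrans : ∀ p q s, U * rot p q * V ∈ c → U * rot q s * V ∈ c → U * rot p s * V ∈ c := by
    intro p q s h1 h2
    by_cases hpq : p = q
    · rw [hpq]; exact h2
    by_cases hqs : q = s
    · rw [← hqs]; exact h1
    by_cases hps : p = s
    · rw [hps]; exact hself s
    have h3 := hc _ (hcg h1) _ h2
    have h4 : U * rot p q * V * (U * rot q s * V) - U * rot q s * V * (U * rot p q * V) =
        U * (rot p q * rot q s - rot q s * rot p q) * V := by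
      have e1 : ∀ A C : Matrix (Fin (l + 2)) (Fin (l + 2)) ℂ,
          U * A * V * (U * C * V) = U * (A * C) * V := by
        intro A C
        calc U * A * V * (U * C * V) = U * A * (V * U) * C * V := by
              simp only [Matrix.mul_assoc]
          _ = U * (A * C) * V := by
              rw [hVU, Matrix.mul_one]
              simp only [Matrix.mul_assoc]
      rw [e1, e1, mul_sub, sub_mul]
    rw [h4, rot_bracket hpq hqs hps] at h3
    exact h3
  have key : ∀ (p q : Fin (l + 2)) (X : Matrix (Fin (l + 2)) (Fin (l + 2)) ℂ), X ∈ c →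
      (∀ j, X *ᵥ b (e j) = (if e j = q then b p else 0) - (if e j = p then b q else 0)) →
      U * rot p q * V ∈ c := by
    intro p q X hX h
    have h1 : U * rot p q * V = X := by
      apply Matrix.toLin'.injective
      refine b.ext fun k => ?_
      rw [Matrix.toLin'_apply, Matrix.toLin'_apply, hrot]
      obtain ⟨j, rfl⟩ := e.surjective k
      rw [h]
    rw [h1]
    exact hX
  have hplus : ∀ i : Fin l, U * rot (e (Sum.inr true)) (e (Sum.inl i)) * V ∈ c := by
    intro i
    obtain ⟨⟨Y, hY, hY'⟩, ⟨Z, hZ, hZ'⟩⟩ := hr i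
    have hY2 : ∀ x, Y *ᵥ Θ x = Θ (opY (r i) (r i) x) := by
      intro x
      rw [← hY']
      show _ = Θ (Θ.symm (Y *ᵥ Θ x))
      rw [LinearEquiv.apply_symm_apply]
    have hZ2 : ∀ x, Z *ᵥ Θ x = Θ (opZ (r i) (r i) x) := by
      intro x
      rw [← hZ']
      show _ = Θ (Θ.symm (Z *ᵥ Θ x))
      rw [LinearEquiv.apply_symm_apply]
    refine key _ _ (s2⁻¹ • (Y - Z)) (c.smul_mem _ (c.sub_mem hY hZ)) fun j => ?_
    rw [hb, hb, hb, smul_mulVec, sub_mulVec, hY2, hZ2, ← map_sub, ← map_smul, rot_plus, map_sub]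
    congr 1
    · by_cases h : j = Sum.inl i
      · rw [if_pos h, if_pos (by rw [h])]
      · rw [if_neg h, if_neg (fun h' => h (e.injective h')), map_zero]
    · by_cases h : j = Sum.inr true
      · rw [if_pos h, if_pos (by rw [h])]
      · rw [if_neg h, if_neg (fun h' => h (e.injective h')), map_zero]
  have hminus : ∀ i : Fin l, U * rot (e (Sum.inl i)) (e (Sum.inr false)) * V ∈ c := by
    intro i
    obtain ⟨⟨Y, hY, hY'⟩, ⟨Z, hZ, hZ'⟩⟩ := hr i
    have hY2 : ∀ x, Y *ᵥ Θ x = Θ (opY (r i) (r i) x) := by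
      intro x
      rw [← hY']
      show _ = Θ (Θ.symm (Y *ᵥ Θ x))
      rw [LinearEquiv.apply_symm_apply]
    have hZ2 : ∀ x, Z *ᵥ Θ x = Θ (opZ (r i) (r i) x) := by
      intro x
      rw [← hZ']
      show _ = Θ (Θ.symm (Z *ᵥ Θ x))
      rw [LinearEquiv.apply_symm_apply]
    refine key _ _ ((- Complex.I * s2⁻¹) • (Y + Z)) (c.smul_mem _ (c.add_mem hY hZ)) fun j => ?_
    rw [hb, hb, hb, smul_mulVec, add_mulVec, hY2, hZ2, ← map_add, ← map_smul, rot_minus, map_sub]
    congr 1
    · by_cases h : j = Sum.inr false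
      · rw [if_pos h, if_pos (by rw [h])]
      · rw [if_neg h, if_neg (fun h' => h (e.injective h')), map_zero]
    · by_cases h : j = Sum.inl i
      · rw [if_pos h, if_pos (by rw [h])]
      · rw [if_neg h, if_neg (fun h' => h (e.injective h')), map_zero]
  have hall : ∀ j, U * rot (e (Sum.inr true)) (e j) * V ∈ c := by
    intro j
    rcases j with i | b
    · exact hplus i
    · cases b
      · exact htrans _ _ _ (hplus ⟨0, hl⟩) (hminus ⟨0, hl⟩)
      · exact hself _
  intro p q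
  obtain ⟨p', rfl⟩ := e.surjective p
  obtain ⟨q', rfl⟩ := e.surjective q
  exact htrans _ _ _ (hsymm _ _ (hall p')) (hall q')

end final

end Pool.Agent.Helper36.Ball
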